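import Pool.Agent.Helper93.TS.Stmts
import Pool.Agent.Helper89.KakGeo

set_option autoImplicit false

/-!
UPC: the parameter `c` is not large.
-/

namespace Pool.Agent.Helper93.TS

open Pool.Agent.Helper8.Kak

theorem upc_in {N : ℕ} (t b : Fin (N * N)) (h : Jc b = Jc t) :
    ((b : ℕ) : ℝ) - ((t : ℕ) : ℝ) = ((((In b : ℕ) : ℤ) - ((In t : ℕ) : ℤ) : ℤ) : ℝ) := by
  have h1 : (b : ℕ) / N = (t : ℕ) / N := congrArg Fin.val h
  have h2 := Nat.div_add_mod (b : ℕ) N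
  have h3 := Nat.div_add_mod (t : ℕ) N
  have e1 : ((In b : ℕ) : ℤ) = (((b : ℕ) % N : ℕ) : ℤ) := rfl
  have e2 : ((In t : ℕ) : ℤ) = (((t : ℕ) % N : ℕ) : ℤ) := rfl
  rw [e1, e2]
  have h4 : ((b : ℕ) : ℝ) = N * (((t : ℕ) / N : ℕ) : ℝ) + (((b : ℕ) % N : ℕ) : ℝ) := by
    rw [← h1]
    exact_mod_cast h2.symm
  have h5 : ((t : ℕ) : ℝ) = N * (((t : ℕ) / N : ℕ) : ℝ) + (((t : ℕ) % N : ℕ) : ℝ) := by
    exact_mod_cast h3.symm
  rw [Int.cast_sub, Int.cast_natCast, Int.cast_natCast]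
  linarith

theorem st_UPC : ST_UPC := by
  intro N t r b hJ
  have hNN : 0 < N * N := lt_of_le_of_lt (Nat.zero_le _) t.2
  have hN : 0 < N := Nat.pos_of_mul_pos_left hNN
  have hN' : (0 : ℝ) < N := by exact_mod_cast hN
  have hNN' : (1 : ℝ) ≤ ((N * N : ℕ) : ℝ) := by exact_mod_cast hNN
  have hin := upc_in t b hJ
  have hX : 1 ≤ 1 / dst (In b) (In t) := Helper89.KakGeo.one_le_inv_dst (In b) (In t)
  have hd := Helper89.KakGeo.dst_eq_int (In b) (In t)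
  set X := 1 / dst (In b) (In t) with hXd
  set β : ℝ := ((b : ℕ) : ℝ) - ((t : ℕ) : ℝ) with hβ
  have hρ : |((r : ℕ) : ℝ) - ((t : ℕ) : ℝ)| ≤ ((N * N : ℕ) : ℝ) := by
    have h1 : ((r : ℕ) : ℝ) ≤ ((N * N : ℕ) : ℝ) := by exact_mod_cast r.2.le
    have h2 : ((t : ℕ) : ℝ) ≤ ((N * N : ℕ) : ℝ) := by exact_mod_cast t.2.le
    have h3 : (0 : ℝ) ≤ ((r : ℕ) : ℝ) := Nat.cast_nonneg _
    have h4 : (0 : ℝ) ≤ ((t : ℕ) : ℝ) := Nat.cast_nonneg _
    rw [abs_le]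
    constructor <;> linarith
  have hq : |(N : ℝ) * (((r : ℕ) : ℝ) - ((t : ℕ) : ℝ)) / β| ≤ X * ((N * N : ℕ) : ℝ) := by
    by_cases hb : β = 0
    · rw [hb, div_zero, abs_zero]
      positivity
    · have h1 : (1 : ℝ) ≤ |β| := by
        rw [hin] at hb ⊢
        have h2 : (((In b : ℕ) : ℤ) - ((In t : ℕ) : ℤ)) ≠ 0 := by
          intro h3
          rw [h3] at hb
          simp at hb
        have h3 := Int.one_le_abs h2
        exact_mod_cast h3
      have h2 : X = N / |β| := by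
        have h3 : max |β| 1 = |β| := max_eq_left h1
        rw [hXd, hd, ← hin, h3, one_div_div]
      rw [h2, abs_div, abs_mul, abs_of_pos hN', div_mul_eq_mul_div]
      exact div_le_div_of_nonneg_right (mul_le_mul_of_nonneg_left hρ hN'.le) (by linarith)
  have hc := (Helper89.KakGeo.abs_floor_le
    ((N : ℝ) * (((r : ℕ) : ℝ) - ((t : ℕ) : ℝ)) / β)).trans (add_le_add hq le_rfl)
  have h1 : 1 + |((cpar t r b : ℤ) : ℝ)| / ((N * N : ℕ) : ℝ) ≤ X * 4 := by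
    have h2 : |((cpar t r b : ℤ) : ℝ)| / ((N * N : ℕ) : ℝ) ≤
        (X * ((N * N : ℕ) : ℝ) + 1) / ((N * N : ℕ) : ℝ) :=
      div_le_div_of_nonneg_right hc (by linarith)
    have h3 : (X * ((N * N : ℕ) : ℝ) + 1) / ((N * N : ℕ) : ℝ) = X + 1 / ((N * N : ℕ) : ℝ) := by
      rw [add_div, mul_div_assoc, div_self (by linarith), mul_one]
    have h4 : 1 / ((N * N : ℕ) : ℝ) ≤ 1 := by
      rw [div_le_one (by linarith)]
      exact hNN'
    linarith
  unfold up nl ld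
  rw [← hXd, ← Real.log_mul (by linarith) (by norm_num)]
  exact Real.log_le_log (by positivity) h1

end Pool.Agent.Helper93.TS
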